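import Pool.Agent.W84.FP.Defs
import Pool.Agent.W573.GA.Ele

/-! # FP-ELEQ: a system of elements in the colour `c1 q` -/

set_option autoImplicit false

namespace Pool.Agent.W613.FP

open Finset
open Pool.Agent.W78.GA Pool.Agent.W84.FP

theorem eleq : S_ELEQ := by
  intro q hq h4q
  have hq0 : (0 : ℤ) < q := by exact_mod_cast hq
  obtain ⟨Ap, Bp, M, E, ρ, ϖ, hE⟩ := Pool.Agent.W573.GA.ele (t := 0) (c := (q : ℤ) ^ 2)
    (by positivity)
  -- primes
  have hpr : ∀ p, Ap p ∨ Bp p → p.Prime ∧ 5 ≤ p ∧ Nat.Coprime p q := by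
    intro p hp
    have h : p.Prime ∧ 5 ≤ p ∧ ¬ (p : ℤ) ∣ 0 ^ 2 - 4 * (q : ℤ) ^ 2 := by
      rcases hp with h | h
      · exact hE.prA p h
      · exact hE.prB p h
    refine ⟨h.1, h.2.1, (Nat.Prime.coprime_iff_not_dvd h.1).mpr ?_⟩
    intro h1
    apply h.2.2
    have h2 : (p : ℤ) ∣ (q : ℤ) := by exact_mod_cast h1
    have e : (0 : ℤ) ^ 2 - 4 * (q : ℤ) ^ 2 = q * (-4 * q) := by ring
    rw [e]
    exact h2.mul_right _
  have hcopd : ∀ d, Sm Ap Bp d → Nat.Coprime q d := by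
    intro d hd
    rw [Nat.coprime_comm]
    apply Nat.Coprime.symm
    apply Nat.coprime_of_dvd
    intro k hk h1 h2
    have h3 := (hpr k (hd.2 k hk h2)).2.2
    have := Nat.eq_one_of_dvd_coprimes h3 dvd_rfl h1
    exact hk.one_lt.ne' this
  let inv : ℕ → ℤ := fun d => Nat.gcdA q d
  have hinv : ∀ d, Nat.Coprime q d → (d : ℤ) ∣ q * inv d - 1 := by
    intro d hd
    have h := Nat.gcd_eq_gcd_ab q d
    rw [hd] at h
    refine ⟨-Nat.gcdB q d, ?_⟩
    push_cast at h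
    simp only [inv]
    linear_combination -h
  let ρ' : ℕ → ℤ := fun d => ρ d * inv d
  have hρ' : ∀ d, Nat.Coprime q d → (d : ℤ) ∣ q * ρ' d - ρ d := by
    intro d hd
    have e : (q : ℤ) * ρ' d - ρ d = ρ d * (q * inv d - 1) := by simp only [ρ']; ring
    rw [e]
    exact (hinv d hd).mul_left _
  have hcopZ : ∀ d, Nat.Coprime q d → IsCoprime (d : ℤ) (q : ℤ) := fun d hd =>
    (Nat.isCoprime_iff_coprime.mpr hd).symm
  -- root
  have hroot : ∀ d, Sm Ap Bp d → (d : ℤ) ∣ ρ' d ^ 2 - 0 * ρ' d + 1 := by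
    intro d hd
    have hc := hcopd d hd
    have h1 := hE.root d hd
    have h2 : (d : ℤ) ∣ (q : ℤ) ^ 2 * (ρ' d ^ 2 - 0 * ρ' d + 1) := by
      have e : (q : ℤ) ^ 2 * (ρ' d ^ 2 - 0 * ρ' d + 1) =
          (ρ d ^ 2 - 0 * ρ d + (q : ℤ) ^ 2) + (q * ρ' d - ρ d) * (q * ρ' d + ρ d) := by ring
      rw [e]
      exact dvd_add h1 ((hρ' d hc).mul_right _)
    exact ((hcopZ d hc).pow_right).dvd_of_dvd_mul_left h2
  have hSmdvd : ∀ d e, Sm Ap Bp e → d ∣ e → Sm Ap Bp d := fun d e he hde =>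
    ⟨ne_zero_of_dvd_ne_zero he.1 hde, fun p hp hpd => he.2 p hp (hpd.trans hde)⟩
  have hcompat : ∀ d e, Sm Ap Bp e → d ∣ e → (d : ℤ) ∣ ρ' e - ρ' d := by
    intro d e he hde
    have hd := hSmdvd d e he hde
    have h1 := hE.compat d e he hde
    have h2 : (d : ℤ) ∣ q * ρ' e - ρ e :=
      (Int.natCast_dvd_natCast.mpr hde).trans (hρ' e (hcopd e he))
    have h3 := hρ' d (hcopd d hd)
    have h4 : (d : ℤ) ∣ (q : ℤ) * (ρ' e - ρ' d) := by
      have e1 : (q : ℤ) * (ρ' e - ρ' d) = (q * ρ' e - ρ e) + (ρ e - ρ d) - (q * ρ' d - ρ d) := by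
        ring
      rw [e1]
      exact dvd_sub (dvd_add h2 h1) h3
    exact (hcopZ d (hcopd d hd)).dvd_of_dvd_mul_left h4
  -- the elements
  let s : ℕ → ℤ := fun m => if (ϖ m).re % 4 = 1 then 1 else -1
  have hs : ∀ m, s m * s m = 1 := by
    intro m
    simp only [s]
    split_ifs <;> norm_num
  let ϖ' : ℕ → Gi := fun m => ⟨s m * (ϖ m).re, s m * ((q : ℤ) * (ϖ m).im)⟩
  have hM : ∀ m, M m → Sm Ap Bp m ∧ m % 2 = 1 := by
    intro m hm
    obtain ⟨p, p', hp, hp', rfl, -, -⟩ := hE.fac m hm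
    have h1 := hpr p (Or.inl hp)
    have h2 := hpr p' (Or.inr hp')
    refine ⟨⟨Nat.mul_ne_zero h1.1.ne_zero h2.1.ne_zero, ?_⟩, ?_⟩
    · intro l hl hld
      rcases (Nat.Prime.dvd_mul hl).1 hld with h | h
      · rw [(Nat.prime_dvd_prime_iff_eq hl h1.1).1 h]; exact Or.inl hp
      · rw [(Nat.prime_dvd_prime_iff_eq hl h2.1).1 h]; exact Or.inr hp'
    · have o1 := h1.1.odd_of_ne_two (by omega)
      have o2 := h2.1.odd_of_ne_two (by omega)
      exact Nat.odd_iff.mp (o1.mul o2)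
  have hnm : ∀ m, M m → (ϖ m).re ^ 2 + (q : ℤ) ^ 2 * (ϖ m).im ^ 2 = m := by
    intro m hm
    have h := (hE.elt m hm).1
    unfold nm at h
    have e : (ϖ m).re ^ 2 + 0 * (ϖ m).re * (ϖ m).im + (q : ℤ) ^ 2 * (ϖ m).im ^ 2 =
        (ϖ m).re ^ 2 + (q : ℤ) ^ 2 * (ϖ m).im ^ 2 := by ring
    rw [e] at h
    have h0 : (0 : ℤ) ≤ (ϖ m).re ^ 2 + (q : ℤ) ^ 2 * (ϖ m).im ^ 2 := by positivity
    have h5 : ((((ϖ m).re ^ 2 + (q : ℤ) ^ 2 * (ϖ m).im ^ 2).natAbs : ℕ) : ℤ) = m := by rw [h]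
    rwa [Int.natCast_natAbs, abs_of_nonneg h0] at h5
  have h4s : ∀ m, M m → (4 : ℤ) ∣ s m * (ϖ m).re - 1 := by
    intro m hm
    obtain ⟨k, hk⟩ := h4q
    have h1 := hnm m hm
    have h2 := (hM m hm).2
    have hodd : (ϖ m).re % 2 = 1 := by
      rcases Int.emod_two_eq_zero_or_one (ϖ m).re with h | h
      · exfalso
        obtain ⟨j, hj⟩ : ∃ j, (ϖ m).re = 2 * j := ⟨(ϖ m).re / 2, by omega⟩
        have hkZ : (q : ℤ) = 4 * k := by exact_mod_cast hk
        have h5 : (m : ℤ) = 2 * (2 * j ^ 2 + 2 * k * q * (ϖ m).im ^ 2) := by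
          linear_combination -h1 + (q : ℤ) * (ϖ m).im ^ 2 * hkZ + ((ϖ m).re + 2 * j) * hj
        omega
      · exact h
    simp only [s]
    split_ifs with h
    · omega
    · omega
  refine ⟨Ap, Bp, M, E, ρ', ϖ', ?_, ?_, ?_⟩
  · refine
      { pos := hE.pos
        prA := ?_
        prB := ?_
        disj := hE.disj
        fac := hE.fac
        root := hroot
        compat := hcompat
        elt := ?_
        rich := hE.rich }
    · intro p hp
      have h := hpr p (Or.inl hp)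
      refine ⟨h.1, h.2.1, ?_⟩
      intro h1
      have h2 : (p : ℤ) ∣ ((4 : ℕ) : ℤ) := by
        have e : (0 : ℤ) ^ 2 - 4 * 1 = -((4 : ℕ) : ℤ) := by norm_num
        rw [e, dvd_neg] at h1
        exact h1
      have h3 := Nat.le_of_dvd (by norm_num) (Int.natCast_dvd_natCast.mp h2)
      omega
    · intro p hp
      have h := hpr p (Or.inr hp)
      refine ⟨h.1, h.2.1, ?_⟩
      intro h1
      have h2 : (p : ℤ) ∣ ((4 : ℕ) : ℤ) := by
        have e : (0 : ℤ) ^ 2 - 4 * 1 = -((4 : ℕ) : ℤ) := by norm_num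
        rw [e, dvd_neg] at h1
        exact h1
      have h3 := Nat.le_of_dvd (by norm_num) (Int.natCast_dvd_natCast.mp h2)
      omega
    · intro m hm
      have h1 := hnm m hm
      constructor
      · unfold nm
        have e : (ϖ' m).re ^ 2 + 0 * (ϖ' m).re * (ϖ' m).im + 1 * (ϖ' m).im ^ 2 = (m : ℤ) := by
          simp only [ϖ']
          have := hs m
          linear_combination ((ϖ m).re ^ 2 + (q : ℤ) ^ 2 * (ϖ m).im ^ 2) * this + h1
        rw [e]
        exact Int.natAbs_natCast m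
      · have h2 := (hE.elt m hm).2
        unfold lat at h2 ⊢
        have e : (ϖ' m).re + ρ' m * (ϖ' m).im = s m * (((ϖ m).re + ρ m * (ϖ m).im) +
            (q * ρ' m - ρ m) * (ϖ m).im) := by
          simp only [ϖ']
          ring
        rw [e]
        exact (dvd_add h2 ((hρ' m (hcopd m (hM m hm).1)).mul_right _)).mul_left _
  · intro p hp
    have h := hpr p hp
    refine ⟨h.2.2, ?_⟩
    have hSm : Sm Ap Bp p := by
      refine ⟨h.1.ne_zero, fun l hl hld => ?_⟩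
      rw [(Nat.prime_dvd_prime_iff_eq hl h.1).1 hld]
      exact hp
    have h1 := hroot p hSm
    have : Fact p.Prime := ⟨h.1⟩
    have h2 : IsSquare (-1 : ZMod p) := by
      have h3 : ((ρ' p ^ 2 - 0 * ρ' p + 1 : ℤ) : ZMod p) = 0 :=
        (ZMod.intCast_zmod_eq_zero_iff_dvd _ _).mpr h1
      push_cast at h3
      refine ⟨(ρ' p : ZMod p), ?_⟩
      linear_combination -h3
    have h3 := ZMod.exists_sq_eq_neg_one_iff.mp h2
    have h4 := Nat.odd_iff.mp (h.1.odd_of_ne_two (by omega))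
    omega
  · intro m hm
    refine ⟨?_, ?_, h4s m hm⟩
    · exact ⟨s m * (ϖ m).im, by simp only [ϖ']; ring⟩
    · have h1 := hnm m hm
      have h2 : IsCoprime (m : ℤ) (q : ℤ) := hcopZ m (hcopd m (hM m hm).1)
      rw [← h1] at h2
      have h3 : IsCoprime ((ϖ m).re ^ 2 + (q : ℤ) * (q * (ϖ m).im ^ 2)) (q : ℤ) := by
        convert h2 using 1
        ring
      have h4 : IsCoprime ((ϖ m).re ^ 2) (q : ℤ) := IsCoprime.of_add_mul_left_left h3
      have h5 : IsCoprime (ϖ m).re (q : ℤ) := (IsCoprime.pow_left_iff (by norm_num)).mp h4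
      change IsCoprime (s m * (ϖ m).re) (q : ℤ)
      refine IsCoprime.mul_left ?_ h5
      exact ⟨s m, 0, by rw [zero_mul, add_zero]; exact hs m⟩

end Pool.Agent.W613.FP
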